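import Pool.Agent.H.MP_392fd3_nt.Main

/-!
Full (negative) answer to Q1 of MP_392fd3_nt: for every number field `K`, every postcritically
finite rational function `P / Q` of degree at least two over `K` and every non-exceptional point
`α` of `P^1(K)`, some prime of some `K_n` is wildly ramified over `K`.
-/

set_option autoImplicit false

open Polynomial
open scoped NumberField

namespace Pool.Agent.Results.MP_392fd3_nt.WildTower

open Pool.Agent.H.MP_392fd3_nt

universe u

/-- Every preimage tower of a postcritically finite map is wildly ramified somewhere. -/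
theorem result : ∀ (K : Type u) [Field K] [NumberField K] (P Q : K[X]),
    IsCoprime P Q → 2 ≤ rdeg P Q → IsPCF P Q →
    ∀ α : Option K, NonExceptional P Q α →
      ∃ n : ℕ, 1 ≤ n ∧ ∃ 𝔓 : Ideal (𝓞 (towerField P Q α n)), 𝔓.IsPrime ∧ 𝔓 ≠ ⊥ ∧
        ringChar (𝓞 (towerField P Q α n) ⧸ 𝔓) ∣ Ideal.ramificationIdx' (𝔓.under (𝓞 K)) 𝔓 :=
  fun _ _ _ P Q hcop hdeg hpcf α hα => main P Q hcop hdeg hpcf α hα

end Pool.Agent.Results.MP_392fd3_nt.WildTower
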